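import Pool.Agent.W864.MS.Limit
import Pool.Agent.W864.MS.Sigma

set_option autoImplicit false

namespace Pool.Agent.Results.MP_2d6919_lc.ContinuousOuterMeasure

open Pool.Agent.W864.MS
open scoped ENNReal

universe u

/-- A positive answer to Q1 (the countable chain condition is not even needed): if every
countably generated complete subalgebra of the complete Boolean algebra `B` admits a measure and
`B` admits a continuous outer measure, then `B` admits a measure. -/
theorem result (B : Type u) [CompleteBooleanAlgebra B]
    (hcg : ∀ C : Set B, IsCompleteSubalgebra C → IsCountablyGenerated C → AdmitsMeasure C)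
    (hm : ∃ m : B → ℝ, IsContinuousOuterMeasure m) :
    AdmitsMeasure (Set.univ : Set B) := by
  obtain ⟨m, hm⟩ := hm
  rcases subsingleton_or_nontrivial B with hB | hB
  · refine ⟨fun _ => 0, fun _ _ => le_rfl, fun a _ ha => absurd (Subsingleton.elim a ⊥) ha, ?_⟩
    intro a _ _
    exact hasSum_zero
  · obtain ⟨μ, htop, hadd, hpos⟩ := exists_strictlyPos hm hcg
    refine ⟨fun a => (lam μ a).toReal, fun _ _ => ENNReal.toReal_nonneg, ?_, ?_⟩
    · intro a _ ha
      exact ENNReal.toReal_pos (lam_pos hadd htop hm hpos a ha) (lam_ne_top hadd htop a)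
    · intro a _ ha
      have hs := lam_sigma hadd htop ha
      have hfin : ∑' n, lam μ (a n) ≠ ∞ := by
        rw [hs]
        exact lam_ne_top hadd htop _
      have h1 := ENNReal.hasSum_toReal hfin
      have h2 : (lam μ (⨆ n, a n)).toReal = ∑' n, (lam μ (a n)).toReal := by
        rw [← hs, ENNReal.tsum_toReal_eq fun n => lam_ne_top hadd htop _]
      show HasSum (fun n => (lam μ (a n)).toReal) (lam μ (⨆ n, a n)).toReal
      rw [h2]
      exact h1

end Pool.Agent.Results.MP_2d6919_lc.ContinuousOuterMeasure
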